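import Pool.Agent.helper4.HL.Spec

/-!
Project hl (MP_07c750_an), module LUV.
-/

open scoped BigOperators ComplexOrder ComplexConjugate Topology

namespace Pool.Agent.HL

open Pool.Agent.helper86.CM Pool.Agent.QS Filter MeasureTheory

noncomputable section

lemma LUV_aux (t : ℤ) (l x : ℝ) (h1 : l + x = t) (h2 : l * x = 1) (k : ℕ) :
    (lu t k : ℝ) * (l - x) = l ^ k - x ^ k ∧
      (lu t (k + 1) : ℝ) * (l - x) = l ^ (k + 1) - x ^ (k + 1) := by
  induction k with
  | zero => simp [lu]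
  | succ k ih =>
    refine ⟨ih.2, ?_⟩
    have e1 : lu t (k + 1 + 1) = t * lu t (k + 1) - lu t k := rfl
    rw [e1]
    push_cast
    have e2 : ((t : ℝ) * (lu t (k + 1) : ℝ) - (lu t k : ℝ)) * (l - x) =
      t * ((lu t (k + 1) : ℝ) * (l - x)) - (lu t k : ℝ) * (l - x) := by ring
    rw [e2, ih.1, ih.2, ← h1]
    linear_combination (l ^ k - x ^ k) * h2

theorem LUV (hA : LUA_stmt) (hL : LUL_stmt) : LUV_stmt := by
  intro B t hB
  obtain ⟨⟨h0, h1, -⟩, h2, -, -⟩ := hL t hB.lt
  have hne : lam t ≠ 0 := by linarith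
  refine ⟨fun k => (LUV_aux t (lam t) (lam t)⁻¹ h1 (mul_inv_cancel₀ hne) k).1, fun k n m => ?_⟩
  rcases k with _ | k
  · have e1 : ((0 : ℕ) : ℤ) = 0 := rfl
    rw [e1, pw_zero]
    simp [lu]
  · rw [hA B t hB k m, sub_eq_add_neg, omega_add_right, omega_neg_right, omega_smul_right,
      omega_smul_right]
    unfold beta
    have h3 := h2 k
    push_cast
    linear_combination (omega n m : ℝ) * h3

end

end Pool.Agent.HL

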